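import Pool.Agent.helper65.GF.SpecG

/-!
# Project BZ, row YM1
-/

set_option autoImplicit false

namespace Pool.Agent.GD

open Finset

theorem YM1 (hYST : YST_stmt) (hYLI : YLI_stmt) : YM1_stmt := by
  intro p Q Φ hQ hR hlow hdiag hV c b hb n hn
  have hodd : ∀ m : ℕ, (2 * (m : ℂ) + 1) ≠ 0 := by
    intro m
    have : (2 * m + 1 : ℕ) ≠ 0 := by omega
    exact_mod_cast this
  -- the special solutions
  have key : ∀ j, j ≤ p → ∃ cj bj : ℕ → ℂ, (∀ m : ℕ, (2 * (m : ℂ) + 1) * bj m = cv Q (cmbh p Φ cj) m) ∧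
      (∀ r, r ≤ p → bj r = if r = j then 1 else 0) ∧ ∀ m, p < m → ‖bj m‖ ≤ AH p m j := by
    intro j hjp
    obtain ⟨t, ht⟩ := CCV_rec (fun r => (2 * (r : ℂ) + 1) * (if r = j then 1 else 0)) Q
    obtain ⟨cj, hcj⟩ := (hYLI p Φ hlow hdiag).1 t
    have hFt : ∀ r, r ≤ p → cmbh p Φ cj r = t r := fun r hr => hcj r hr
    have hcv : ∀ r, r ≤ p → cv Q (cmbh p Φ cj) r = (2 * (r : ℂ) + 1) * (if r = j then 1 else 0) := by
      intro r hr
      rw [CCV_cv_succ Q _ hQ r, hFt r hr, ht r]
      rw [Finset.sum_congr rfl (fun m hm => by rw [hFt m (by have := mem_range.1 hm; omega)])]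
      ring
    have hbj : ∀ m : ℕ, (2 * (m : ℂ) + 1) * (cv Q (cmbh p Φ cj) m / (2 * (m : ℂ) + 1)) = cv Q (cmbh p Φ cj) m := by
      intro m
      rw [mul_comm]
      exact div_mul_cancel₀ _ (hodd m)
    have hbr : ∀ r : ℕ, r ≤ p → (fun m : ℕ => cv Q (cmbh p Φ cj) m / (2 * (m : ℂ) + 1)) r = if r = j then 1 else 0 := by
      intro r h2
      change cv Q (cmbh p Φ cj) r / (2 * (r : ℂ) + 1) = _
      rw [hcv r h2, mul_comm]
      exact mul_div_cancel_right₀ _ (hodd r)
    have hFb : ∀ m, p < m → ‖cmbh p Φ cj m‖ ≤ (2 * j + 1) * BH p m j := by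
      refine hV j cj hjp ?_
      intro r h2
      rw [hcv r h2]
      by_cases h : r = j
      · rw [if_pos h, if_pos h, mul_one, h]
      · rw [if_neg h, if_neg h, mul_zero]
    refine ⟨cj, fun m : ℕ => cv Q (cmbh p Φ cj) m / (2 * (m : ℂ) + 1), hbj, hbr, ?_⟩
    intro m
    induction m using Nat.strong_induction_on with
    | _ m ih =>
      intro hm
      have h1 := hYST p m j Q (fun m : ℕ => cv Q (cmbh p Φ cj) m / (2 * (m : ℂ) + 1)) (cmbh p Φ cj) hjp hm hQ hR hbj hbr
        (fun k hk hkm => ih k hkm hk) (fun k hk _ => hFb k hk)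
      have h2 := hFb m hm
      have h3 : ‖(2 * (m : ℂ) + 1) * (cv Q (cmbh p Φ cj) m / (2 * (m : ℂ) + 1))‖ ≤ (2 * m + 1) * AH p m j := by
        calc ‖(2 * (m : ℂ) + 1) * (cv Q (cmbh p Φ cj) m / (2 * (m : ℂ) + 1))‖
            = ‖((2 * (m : ℂ) + 1) * (cv Q (cmbh p Φ cj) m / (2 * (m : ℂ) + 1)) - cmbh p Φ cj m) + cmbh p Φ cj m‖ := by
              rw [sub_add_cancel]
          _ ≤ ‖(2 * (m : ℂ) + 1) * (cv Q (cmbh p Φ cj) m / (2 * (m : ℂ) + 1)) - cmbh p Φ cj m‖ + ‖cmbh p Φ cj m‖ :=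
              norm_add_le _ _
          _ ≤ ((2 * m + 1) * AH p m j - (2 * j + 1) * BH p m j) + (2 * j + 1) * BH p m j := add_le_add h1 h2
          _ = (2 * m + 1) * AH p m j := by ring
      have hnorm : ‖(2 * (m : ℂ) + 1)‖ = 2 * (m : ℝ) + 1 := by
        have : (2 * (m : ℂ) + 1) = ((2 * m + 1 : ℕ) : ℂ) := by push_cast; ring
        rw [this, Complex.norm_natCast]
        push_cast
        ring
      rw [norm_mul, hnorm] at h3
      have hmpos : (0 : ℝ) < 2 * (m : ℝ) + 1 := by positivity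
      exact le_of_mul_le_mul_left h3 hmpos
  choose! cj bj hk1 hk2 hk3 using key
  -- the general case
  have hcmb : ∀ r, cmbh p Φ (fun m => c m - ∑ j ∈ range (p + 1), b j * cj j m) r
      = cmbh p Φ c r - ∑ j ∈ range (p + 1), b j * cmbh p Φ (cj j) r := by
    intro r
    unfold cmbh
    simp only [sub_mul, Finset.sum_sub_distrib, Finset.mul_sum, Finset.sum_mul]
    congr 1
    rw [Finset.sum_comm]
    refine Finset.sum_congr rfl fun j _ => Finset.sum_congr rfl fun m _ => by ring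
  have hcv : ∀ r, cv Q (cmbh p Φ (fun m => c m - ∑ j ∈ range (p + 1), b j * cj j m)) r
      = cv Q (cmbh p Φ c) r - ∑ j ∈ range (p + 1), b j * cv Q (cmbh p Φ (cj j)) r := by
    intro r
    unfold cv
    simp only [hcmb, mul_sub, Finset.sum_sub_distrib, Finset.mul_sum]
    congr 1
    rw [Finset.sum_comm]
    refine Finset.sum_congr rfl fun j _ => Finset.sum_congr rfl fun m _ => by ring
  have hsmall : ∀ r, r ≤ p → cmbh p Φ (fun m => c m - ∑ j ∈ range (p + 1), b j * cj j m) r = 0 := by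
    intro r
    induction r using Nat.strong_induction_on with
    | _ r ih =>
      intro hr
      have h1 := hcv r
      rw [CCV_cv_succ Q _ hQ r] at h1
      rw [Finset.sum_eq_zero (fun m hm => by
        rw [ih m (mem_range.1 hm) (by have := mem_range.1 hm; omega), mul_zero]), zero_add] at h1
      rw [h1, ← hb r]
      rw [Finset.sum_congr rfl (fun j hj => by
        rw [← hk1 j (by have := mem_range.1 hj; omega) r, hk2 j (by have := mem_range.1 hj; omega) r hr])]
      rw [Finset.sum_eq_single_of_mem r (by rw [mem_range]; omega)]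
      · simp
        ring
      · intro j _ hne
        rw [if_neg (Ne.symm hne)]
        ring
  have hzero : ∀ m, m ≤ p → (fun m => c m - ∑ j ∈ range (p + 1), b j * cj j m) m = 0 :=
    (hYLI p Φ hlow hdiag).2 _ (fun j hj => hsmall j hj)
  have hall : ∀ r, cmbh p Φ (fun m => c m - ∑ j ∈ range (p + 1), b j * cj j m) r = 0 := by
    intro r
    unfold cmbh
    refine Finset.sum_eq_zero fun m hm => ?_
    have := hzero m (by have := mem_range.1 hm; omega)
    rw [this, zero_mul]
  have hbn : b n = ∑ j ∈ range (p + 1), b j * bj j n := by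
    have h1 := hcv n
    have h2 : cv Q (cmbh p Φ (fun m => c m - ∑ j ∈ range (p + 1), b j * cj j m)) n = 0 := by
      unfold cv
      refine Finset.sum_eq_zero fun m _ => ?_
      rw [hall m, mul_zero]
    rw [h2, ← hb n] at h1
    rw [Finset.sum_congr rfl (fun j hj => by
      rw [← hk1 j (by have := mem_range.1 hj; omega) n])] at h1
    have h3 : (2 * (n : ℂ) + 1) * b n = (2 * (n : ℂ) + 1) * ∑ j ∈ range (p + 1), b j * bj j n := by
      rw [Finset.mul_sum]
      rw [Finset.sum_congr rfl (fun j _ => by ring : ∀ j ∈ range (p + 1),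
        (2 * (n : ℂ) + 1) * (b j * bj j n) = b j * ((2 * (n : ℂ) + 1) * bj j n))]
      exact (sub_eq_zero.1 h1.symm)
    exact mul_left_cancel₀ (hodd n) h3
  rw [hbn]
  refine (norm_sum_le _ _).trans (Finset.sum_le_sum fun j hj => ?_)
  rw [norm_mul, mul_comm]
  exact mul_le_mul_of_nonneg_right (hk3 j (by have := mem_range.1 hj; omega) n hn) (norm_nonneg _)

end Pool.Agent.GD
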